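import Pool.Agent.helper62.K3.Defs

/-! # Project HK (MP_90cd86_gt), module CG: a subgroup of order 32 in the kernel of a character -/

noncomputable section

namespace Pool.Agent.helper62.K3

theorem CG (c : Multiplicative (Fin 6 → ZMod 2) →* ℂ) :
    ∃ H : Subgroup (Multiplicative (Fin 6 → ZMod 2)), Nat.card H = 2 ^ 5 ∧ ∀ g ∈ H, c g = 1 := by
  classical
  set G := Multiplicative (Fin 6 → ZMod 2) with hG
  have hcard : Nat.card G = 64 := by
    rw [hG, Nat.card_eq_fintype_card, Fintype.card_multiplicative, Fintype.card_fun, ZMod.card,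
      Fintype.card_fin]
    norm_num
  set u : G →* ℂˣ := c.toHomUnits with hu
  have hcu : ∀ g, ((u g : ℂˣ) : ℂ) = c g := fun g => rfl
  have hsq : ∀ g : G, g * g = 1 := by
    intro g
    have : Multiplicative.toAdd (g * g) = 0 := by
      rw [toAdd_mul]
      funext i
      exact CharTwo.add_self_eq_zero _
    exact this
  have hpm : ∀ g : G, c g = 1 ∨ c g = -1 := by
    intro g
    have h1 : c g * c g = 1 := by rw [← map_mul, hsq, map_one]
    exact mul_self_eq_one_iff.1 h1
  have hidx : Nat.card u.range ≤ 2 := by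
    have h1 : ∀ x ∈ u.range, x ∈ ({1, -1} : Set ℂˣ) := by
      rintro x ⟨g, rfl⟩
      rcases hpm g with h | h
      · left
        exact Units.ext h
      · right
        exact Units.ext (by rw [hcu, h, Units.val_neg, Units.val_one])
    have h2 : Nat.card u.range = (u.range : Set ℂˣ).ncard := rfl
    rw [h2]
    refine (Set.ncard_le_ncard (fun x hx => h1 x hx) (by simp)).trans ?_
    exact Set.ncard_insert_le _ _ |>.trans (by simp)
  have hK : Nat.card u.ker * u.ker.index = 64 := by
    rw [← hcard]
    exact Subgroup.card_mul_index _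
  rw [Subgroup.index_ker] at hK
  have hdvd : 2 ^ 5 ∣ Nat.card u.ker := by
    have h3 : Nat.card u.range ≠ 0 := by
      intro h
      rw [h] at hK
      simp at hK
    have h4 : Nat.card u.range = 1 ∨ Nat.card u.range = 2 := by omega
    rcases h4 with h4 | h4
    · rw [h4] at hK
      exact ⟨2, by omega⟩
    · rw [h4] at hK
      exact ⟨1, by omega⟩
  have : Fact (Nat.Prime 2) := ⟨Nat.prime_two⟩
  obtain ⟨H', hH'⟩ := Sylow.exists_subgroup_card_pow_prime 2 hdvd
  refine ⟨H'.map u.ker.subtype, ?_, ?_⟩
  · rw [← hH']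
    exact Nat.card_congr (H'.equivMapOfInjective _ (Subgroup.subtype_injective _)).toEquiv.symm
  · rintro g ⟨k, -, rfl⟩
    have h5 : u (k : G) = 1 := k.2
    have h6 := hcu k
    rw [h5, Units.val_one] at h6
    exact h6.symm

end Pool.Agent.helper62.K3
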