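import Pool.Agent.helper18.HK.UB
import Pool.Agent.helper81.HK.VA

/-! # Project HK (MP_90cd86_gt), module UA: the Smith sequence -/

noncomputable section

namespace Pool.Agent.helper62.K3

open scoped Classical in
/-- the action on finite subsets -/
def UA_act {X G : Type} [Group G] [MulAction G X] (g : G) (σ : Finset X) : Finset X :=
  σ.image (fun x => g • x)

section act
variable {X G : Type} [Group G] [MulAction G X]

theorem UA_act_mul (g h : G) (σ : Finset X) : UA_act (g * h) σ = UA_act g (UA_act h σ) := by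
  classical
  unfold UA_act
  rw [Finset.image_image]
  congr 1
  funext x
  exact mul_smul g h x

theorem UA_act_one (σ : Finset X) : UA_act (1 : G) σ = σ := by
  classical
  unfold UA_act
  simp

theorem UA_act_card (g : G) (σ : Finset X) : (UA_act g σ).card = σ.card := by
  classical
  unfold UA_act
  exact Finset.card_image_of_injective _ (MulAction.injective g)

theorem UA_mem_act (g : G) (σ : Finset X) (y : X) : y ∈ UA_act g σ ↔ ∃ x ∈ σ, g • x = y := by
  classical
  unfold UA_act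
  rw [Finset.mem_image]

theorem UA_mem_Vinv (K : Subgroup G) (f : Finset X → ZMod 2) :
    f ∈ Vinv (X := X) K ↔ ∀ g ∈ K, ∀ σ : Finset X, f (UA_act g σ) = f σ := by
  classical
  constructor
  · intro h g hg σ
    exact h g hg σ
  · intro h g hg σ
    exact h g hg σ

/-- the map `f ↦ f + f (s ·)` -/
def UA_p (s : G) : (Finset X → ZMod 2) →ₗ[ZMod 2] (Finset X → ZMod 2) where
  toFun f σ := f σ + f (UA_act s σ)
  map_add' f g := by
    funext σ
    simp only [Pi.add_apply]
    ring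
  map_smul' c f := by
    funext σ
    simp only [Pi.smul_apply, RingHom.id_apply, smul_add]

theorem UA_p_apply (s : G) (f : Finset X → ZMod 2) (σ : Finset X) :
    UA_p s f σ = f σ + f (UA_act s σ) := rfl

theorem UA_dd_act (s : G) (f : Finset X → ZMod 2) (σ : Finset X) :
    dd f (UA_act s σ) = dd (fun τ => f (UA_act s τ)) σ := by
  classical
  change ∑ x ∈ UA_act s σ, f ((UA_act s σ).erase x) = ∑ x ∈ σ, f (UA_act s (σ.erase x))
  unfold UA_act
  rw [Finset.sum_image (fun x _ y _ h => MulAction.injective s h)]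
  refine Finset.sum_congr rfl fun x _ => ?_
  rw [Finset.image_erase (MulAction.injective s)]
end act

section met
variable {X G : Type} [MetricSpace X] [Group G] [MulAction G X]

theorem UA_small (iso : ∀ g : G, Isometry (fun x : X => g • x)) (g : G) (δ : ℝ) (σ : Finset X)
    (h : Small δ σ) : Small δ (UA_act g σ) := by
  intro x hx y hy
  rw [UA_mem_act] at hx hy
  obtain ⟨x', hx', rfl⟩ := hx
  obtain ⟨y', hy', rfl⟩ := hy
  rw [(iso g).dist_eq]
  exact h x' hx' y' hy'

theorem UA_near (iso : ∀ g : G, Isometry (fun x : X => g • x)) (F : Set X)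
    (hinv : ∀ g : G, ∀ x ∈ F, g • x ∈ F) (g : G) (δ : ℝ) (σ : Finset X)
    (h : Near F δ σ) : Near F δ (UA_act g σ) := by
  intro x hx
  rw [UA_mem_act] at hx
  obtain ⟨x', hx', rfl⟩ := hx
  obtain ⟨p, hp, hxp⟩ := h x' hx'
  refine ⟨g • p, hinv g p hp, ?_⟩
  rw [(iso g).dist_eq]
  exact hxp
end met

/-- sets of representatives -/
theorem UA_R {X G : Type} [Group G] [MulAction G X]
    (h2 : ∀ g : G, g * g = 1) (K K' : Subgroup G) (s : G)
    (hK : ∀ g, g ∈ K' ↔ g ∈ K ∨ s * g ∈ K) :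
    ∃ R : Set (Finset X), (∀ k ∈ K, ∀ τ, UA_act k τ ∈ R ↔ τ ∈ R) ∧
      ∀ τ : Finset X, (∀ k ∈ K, UA_act (s * k) τ ≠ τ) →
        ((τ ∈ R ∧ UA_act s τ ∉ R) ∨ (τ ∉ R ∧ UA_act s τ ∈ R)) := by
  classical
  let st : Setoid (Finset X) :=
    { r := fun τ τ' => ∃ g ∈ K', τ' = UA_act g τ
      iseqv := by
        refine ⟨fun τ => ⟨1, K'.one_mem, (UA_act_one τ).symm⟩, ?_, ?_⟩
        · rintro τ τ' ⟨g, hg, rfl⟩
          refine ⟨g, hg, ?_⟩
          rw [← UA_act_mul, h2, UA_act_one]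
        · rintro τ τ' τ'' ⟨g, hg, rfl⟩ ⟨g', hg', rfl⟩
          exact ⟨g' * g, K'.mul_mem hg' hg, (UA_act_mul g' g τ).symm⟩ }
  let rep : Finset X → Finset X := fun τ => (Quotient.out (Quotient.mk st τ) : Finset X)
  have hrep1 : ∀ τ, ∃ g ∈ K', τ = UA_act g (rep τ) := by
    intro τ
    exact Quotient.exact (Quotient.out_eq (Quotient.mk st τ))
  have hrep2 : ∀ g ∈ K', ∀ τ, rep (UA_act g τ) = rep τ := by
    intro g hg τ
    have h : (Quotient.mk st (UA_act g τ)) = Quotient.mk st τ := by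
      apply Quotient.sound
      exact Setoid.symm ⟨g, hg, rfl⟩
    change (Quotient.out (Quotient.mk st (UA_act g τ)) : Finset X) = _
    rw [h]
  have hKK' : ∀ k ∈ K, k ∈ K' := fun k hk => (hK k).2 (Or.inl hk)
  have hsK' : s ∈ K' := (hK s).2 (Or.inr (by rw [h2]; exact K.one_mem))
  refine ⟨{τ | ∃ k ∈ K, τ = UA_act k (rep τ)}, ?_, ?_⟩
  · intro k hk τ
    constructor
    · rintro ⟨l, hl, h⟩
      rw [hrep2 k (hKK' k hk)] at h
      refine ⟨k * l, K.mul_mem hk hl, ?_⟩
      rw [UA_act_mul, ← h, ← UA_act_mul, h2, UA_act_one]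
    · rintro ⟨l, hl, h⟩
      refine ⟨k * l, K.mul_mem hk hl, ?_⟩
      rw [hrep2 k (hKK' k hk), UA_act_mul, ← h]
  · intro τ hτ
    have hor : (∃ k ∈ K, τ = UA_act k (rep τ)) ∨ ∃ k ∈ K, UA_act s τ = UA_act k (rep (UA_act s τ)) := by
      obtain ⟨g, hg, h⟩ := hrep1 τ
      rcases (hK g).1 hg with h' | h'
      · exact Or.inl ⟨g, h', h⟩
      · right
        refine ⟨s * g, h', ?_⟩
        rw [hrep2 s hsK', UA_act_mul, ← h]
    have hnot : ¬ ((∃ k ∈ K, τ = UA_act k (rep τ)) ∧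
        ∃ k ∈ K, UA_act s τ = UA_act k (rep (UA_act s τ))) := by
      rintro ⟨⟨k, hk, h⟩, l, hl, h'⟩
      rw [hrep2 s hsK'] at h'
      have h3 : rep τ = UA_act k τ := by
        conv_rhs => rw [h]
        rw [← UA_act_mul, h2, UA_act_one]
      rw [h3, ← UA_act_mul] at h'
      apply hτ (l * k) (K.mul_mem hl hk)
      rw [UA_act_mul, ← h', ← UA_act_mul, h2, UA_act_one]
    by_cases h : ∃ k ∈ K, τ = UA_act k (rep τ)
    · exact Or.inl ⟨h, fun h' => hnot ⟨h, h'⟩⟩
    · refine Or.inr ⟨h, ?_⟩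
      rcases hor with h' | h'
      · exact absurd h' h
      · exact h'

section
variable {X G : Type} [MetricSpace X] [CompactSpace X] [Group G] [Finite G] [MulAction G X]

/-- hk:UA the Smith sequence -/
theorem UA (iso : ∀ g : G, Isometry (fun x : X => g • x)) (F : Set X) (hF : F.Finite)
    (hinv : ∀ g : G, ∀ x ∈ F, g • x ∈ F)
    (hfree : ∀ x, x ∉ F → ∀ g : G, g • x = x → g = 1)
    (hcomm : ∀ g h : G, g * h = h * g) (h2 : ∀ g : G, g * g = 1)
    (K K' : Subgroup G) (s : G) (hs : s ∉ K) (hK : ∀ g, g ∈ K' ↔ g ∈ K ∨ s * g ∈ K) :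
    ∃ p : (Finset X → ZMod 2) →ₗ[ZMod 2] (Finset X → ZMod 2),
      SES dd (Zg Set.univ) (Zg Set.univ) (Vinv K' ⊓ Vrel F) (Vinv K ⊓ Vrel F)
        (Vinv K' ⊓ Vrel F) p := by
  classical
  have hKK' : ∀ k ∈ K, k ∈ K' := fun k hk => (hK k).2 (Or.inl hk)
  have hsK' : s ∈ K' := (hK s).2 (Or.inr (by rw [h2]; exact K.one_mem))
  have h20 : ∀ a : ZMod 2, a + a = 0 := CharTwo.add_self_eq_zero
  -- K'-translates of functions invariant under K
  have hor : ∀ (b : Finset X → ZMod 2), b ∈ Vinv (X := X) K → ∀ g ∈ K', ∀ σ,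
      (b (UA_act g σ) = b σ ∧ b (UA_act s (UA_act g σ)) = b (UA_act s σ)) ∨
      (b (UA_act g σ) = b (UA_act s σ) ∧ b (UA_act s (UA_act g σ)) = b σ) := by
    intro b hb g hg σ
    rw [UA_mem_Vinv] at hb
    rcases (hK g).1 hg with h | h
    · left
      refine ⟨hb g h σ, ?_⟩
      rw [← UA_act_mul, hcomm, UA_act_mul, hb g h]
    · right
      constructor
      · have h3 : g = (s * g) * s := by
          rw [hcomm s g, mul_assoc, h2, mul_one]
        conv_lhs => rw [h3]
        rw [UA_act_mul, hb _ h]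
      · rw [← UA_act_mul, hb _ h]
  have hd : ∀ (L : Subgroup G), ∀ v ∈ Vinv (X := X) L ⊓ Vrel F, dd v ∈ Vinv (X := X) L ⊓ Vrel F :=
    fun L v hv => ⟨DD_Vinv L v hv.1, DD_Vrel F v hv.2⟩
  refine ⟨UA_p s, DD_sq, fun n v hv => DD_Zg _ n v hv, fun n v hv => DD_Zg _ n v hv,
    hd K', hd K, hd K', ?_, ?_, ?_, ?_, ?_, ?_, ?_, ?_, ?_⟩
  · -- AB
    rintro f ⟨h1, h3⟩
    exact ⟨fun g hg σ => h1 g (hKK' g hg) σ, h3⟩
  · -- pB
    rintro b ⟨h1, δ, hδ, h3⟩
    refine ⟨?_, δ, hδ, ?_⟩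
    · change UA_p s b ∈ Vinv (X := X) K'
      rw [UA_mem_Vinv]
      intro g hg σ
      rw [UA_p_apply, UA_p_apply]
      rcases hor b h1 g hg σ with ⟨h4, h5⟩ | ⟨h4, h5⟩
      · rw [h4, h5]
      · rw [h4, h5, add_comm]
    · intro σ hσ
      rw [UA_p_apply, h3 σ hσ, h3 _ (UA_near iso F hinv s δ σ hσ), add_zero]
  · -- pd
    intro b _
    funext σ
    rw [UA_p_apply, UA_dd_act]
    change dd b σ + dd (fun τ => b (UA_act s τ)) σ = dd (b + fun τ => b (UA_act s τ)) σ
    rw [map_add]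
    rfl
  · -- pZ
    rintro n b - ⟨δ, hδ, h⟩
    refine ⟨δ, hδ, fun σ _ hs' hc => ?_⟩
    rw [UA_p_apply, h σ (Set.subset_univ _) hs' hc, h _ (Set.subset_univ _)
      (UA_small iso s δ σ hs') (by rw [UA_act_card, hc]), add_zero]
  · -- surj
    rintro n c ⟨h1, ρ, hρ, h3⟩
    obtain ⟨θ, hθ, h4⟩ := VA iso F hF hfree ρ hρ
    obtain ⟨R, hR1, hR2⟩ := UA_R (X := X) h2 K K' s hK
    have h1' := (UA_mem_Vinv K' c).1 h1
    refine ⟨fun τ => if τ ∈ R then c τ else 0, ⟨?_, ρ, hρ, ?_⟩, θ, hθ, ?_⟩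
    · refine (UA_mem_Vinv K _).2 ?_
      intro k hk τ
      simp only [hR1 k hk τ, h1' k (hKK' k hk) τ]
    · intro σ hσ
      simp only [h3 σ hσ, ite_self]
    · intro τ _ hsm hc
      rw [Pi.sub_apply, UA_p_apply]
      by_cases hN : Near F ρ τ
      · rw [h3 τ hN, h3 _ (UA_near iso F hinv s ρ τ hN)]
        simp
      · have hgood : ∀ k ∈ K, UA_act (s * k) τ ≠ τ := by
          intro k hk he
          unfold Near at hN
          push Not at hN
          obtain ⟨x, hx, hxF⟩ := hN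
          have h5 : (s * k) • x ∈ τ := by
            rw [← he, UA_mem_act]
            exact ⟨x, hx, rfl⟩
          have h6 := hsm _ h5 x hx
          have h7 : s * k = 1 := by
            by_contra h7
            have := h4 x hxF (s * k) h7
            linarith
          apply hs
          have h8 : s = k := by
            rw [← mul_one s, ← h2 k, ← mul_assoc, h7, one_mul]
          rw [h8]
          exact hk
        rw [h1' s hsK' τ]
        rcases hR2 τ hgood with ⟨h5, h6⟩ | ⟨h5, h6⟩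
        · rw [if_pos h5, if_neg h6, add_zero, sub_self]
        · rw [if_neg h5, if_pos h6, zero_add, sub_self]
  · -- mid
    rintro n b ⟨h1, h3⟩ ⟨δ, hδ, h4⟩
    refine ⟨fun τ => if Small δ τ ∧ τ.card = n then b τ else 0, ⟨?_, ?_⟩, δ, hδ, ?_⟩
    · refine (UA_mem_Vinv K' _).2 ?_
      intro g hg τ
      have h5 : (Small δ (UA_act g τ) ∧ (UA_act g τ).card = n) ↔ (Small δ τ ∧ τ.card = n) := by
        rw [UA_act_card]
        constructor
        · rintro ⟨h6, h7⟩
          refine ⟨?_, h7⟩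
          have := UA_small iso g δ _ h6
          rwa [← UA_act_mul, h2, UA_act_one] at this
        · rintro ⟨h6, h7⟩
          exact ⟨UA_small iso g δ _ h6, h7⟩
      simp only [h5]
      by_cases h6 : Small δ τ ∧ τ.card = n
      · rw [if_pos h6, if_pos h6]
        have h7 := h4 τ (Set.subset_univ _) h6.1 h6.2
        rw [UA_p_apply] at h7
        have h8 : b (UA_act s τ) = b τ := by
          have h9 := h20 (b τ)
          have h10 : b τ + b (UA_act s τ) = b τ + b τ := by rw [h7, h9]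
          exact add_left_cancel h10
        rcases hor b h1 g hg τ with ⟨h9, -⟩ | ⟨h9, -⟩
        · exact h9
        · rw [h9, h8]
      · rw [if_neg h6, if_neg h6]
    · obtain ⟨ρ, hρ, h5⟩ := h3
      refine ⟨ρ, hρ, fun σ hσ => ?_⟩
      simp only [h5 σ hσ, ite_self]
    · intro τ _ hsm hc
      rw [Pi.sub_apply, if_pos ⟨hsm, hc⟩, sub_self]
  · -- comp
    rintro n a ⟨h1, -⟩
    refine ⟨1, one_pos, fun τ _ _ _ => ?_⟩
    rw [UA_p_apply, (UA_mem_Vinv K' a).1 h1 s hsK' τ]
    exact h20 _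
  · intro v hv
    exact UB_zero_Zg _ v (UB_zero F v hv.2)
  · intro v hv
    exact UB_zero_Zg _ v (UB_zero F v hv.2)

end

end Pool.Agent.helper62.K3
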