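import Pool.Agent.helper15.HK.DD

/-! # Project HK (MP_90cd86_gt), module UB: the sequence of the pair -/

noncomputable section

namespace Pool.Agent.helper62.K3

theorem UB_near_empty {X : Type} [MetricSpace X] (F : Set X) (δ : ℝ) : Near F δ (∅ : Finset X) := by
  intro x hx
  simp at hx

theorem UB_zero {X : Type} [MetricSpace X] (F : Set X) (f : Finset X → ZMod 2) (hf : f ∈ Vrel F) :
    f ∅ = 0 := by
  obtain ⟨δ, hδ, h⟩ := hf
  exact h ∅ (UB_near_empty F δ)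

theorem UB_zero_Zg {X : Type} [MetricSpace X] (B : Set X) (f : Finset X → ZMod 2)
    (hf : f ∅ = 0) : f ∈ Zg B 0 := by
  refine ⟨1, one_pos, fun σ _ _ hc => ?_⟩
  rw [Finset.card_eq_zero] at hc
  rw [hc, hf]

section
variable {X : Type} [MetricSpace X] [CompactSpace X]

/-- hk:UB -/
theorem UB (F : Set X) : SES dd (Zg Set.univ) (ZF F) (Vrel F) (Vrel ∅) (Vrel ∅)
    (LinearMap.id : (Finset X → ZMod 2) →ₗ[ZMod 2] (Finset X → ZMod 2)) := by
  classical
  have hAB : Vrel F ≤ Vrel (∅ : Set X) := by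
    intro f hf
    refine ⟨1, one_pos, fun σ hσ => ?_⟩
    have : σ = ∅ := by
      rw [Finset.eq_empty_iff_forall_notMem]
      intro x hx
      obtain ⟨p, hp, -⟩ := hσ x hx
      exact hp
    rw [this]
    exact UB_zero F f hf
  refine ⟨DD_sq, fun n v hv => DD_Zg _ n v hv, fun n v hv => DD_ZF F n v hv,
    fun v hv => DD_Vrel F v hv, fun v hv => DD_Vrel ∅ v hv, fun v hv => DD_Vrel ∅ v hv,
    hAB, fun b hb => hb, fun b _ => rfl, ?_, ?_, ?_, ?_, ?_, ?_⟩
  · rintro n b - ⟨δ, hδ, h⟩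
    exact ⟨δ, hδ, fun σ _ hs hc => h σ (Set.subset_univ _) hs hc⟩
  · intro n c hc
    refine ⟨c, hc, ?_⟩
    rw [LinearMap.id_apply, sub_self]
    exact Submodule.zero_mem _
  · rintro n b - ⟨δ, hδ, h⟩
    refine ⟨fun σ => if Near F δ σ then 0 else b σ, ⟨δ, hδ, fun σ hσ => if_pos hσ⟩, δ, hδ, ?_⟩
    intro σ _ hs hc
    rw [Pi.sub_apply]
    by_cases hN : Near F δ σ
    · rw [if_pos hN, zero_sub, neg_eq_zero]
      exact h σ hN hs hc
    · rw [if_neg hN, sub_self]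
  · rintro n a ⟨δ, hδ, h⟩
    exact ⟨δ, hδ, fun σ hσ _ _ => h σ hσ⟩
  · intro v hv
    exact UB_zero_Zg _ v (UB_zero ∅ v hv)
  · intro v hv
    refine ⟨1, one_pos, fun σ _ _ hc => ?_⟩
    rw [Finset.card_eq_zero] at hc
    rw [hc, UB_zero ∅ v hv]

end

end Pool.Agent.helper62.K3
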