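import Pool.Agent.helper15.HK.DD
import Pool.Agent.helper31.HK.PR
import Pool.Agent.helper31.HK.PE
import Pool.Agent.helper35.HK.VB
import Pool.Agent.helper81.HK.VC

/-! # Project HK (MP_90cd86_gt), module VD: vanishing above the dimension -/

noncomputable section

namespace Pool.Agent.helper62.K3

open scoped Classical in
theorem VD_prismSet_near {X L : Type} [MetricSpace X] [LinearOrder L] (key : X → L) (r : X → X)
    (ρ : ℝ) (hr : ∀ x, dist (r x) x < ρ) (σ : Finset X) (x y : X)
    (hy : y ∈ prismSet key r id σ x) : ∃ z ∈ σ, dist y z < ρ := by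
  unfold prismSet at hy
  rw [Finset.mem_union, Finset.mem_image, Finset.mem_image] at hy
  rcases hy with ⟨z, hz, rfl⟩ | ⟨z, hz, rfl⟩
  · exact ⟨z, (Finset.mem_filter.1 hz).1, hr z⟩
  · refine ⟨z, (Finset.mem_filter.1 hz).1, ?_⟩
    rw [id, dist_self]
    exact lt_of_le_of_lt dist_nonneg (hr z)

section
variable {X G : Type} [MetricSpace X] [CompactSpace X] [Group G] [Finite G] [MulAction G X]

/-- hk:VD vanishing above the dimension -/
theorem VD (iso : ∀ g : G, Isometry (fun x : X => g • x)) (F : Set X) (hF : F.Finite)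
    (hinv : ∀ g : G, ∀ x ∈ F, g • x ∈ F)
    (hfree : ∀ x, x ∉ F → ∀ g : G, g • x = x → g = 1) (D : ℕ) (grid : Grid G X D)
    (K : Subgroup G) (n : ℕ) (hn : D < n) :
    Subsingleton (Coh (dd (X := X)) (Zg Set.univ) (Vinv K ⊓ Vrel F) n) := by
  classical
  rw [Submodule.Quotient.subsingleton_iff]
  unfold Submodule.submoduleOf
  rw [Submodule.comap_subtype_eq_top]
  rintro f ⟨⟨hfinv, d1, hd1, hf1⟩, d0, hd0, hf0⟩
  set ρ : ℝ := min (d1 / 2) (d0 / 4) with hρ
  have hρ0 : 0 < ρ := by positivity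
  have hρ1 : 2 * ρ ≤ d1 := by
    have := min_le_left (d1 / 2) (d0 / 4)
    rw [← hρ] at this
    linarith
  have hρ2 : 4 * ρ ≤ d0 := by
    have := min_le_right (d1 / 2) (d0 / 4)
    rw [← hρ] at this
    linarith
  obtain ⟨r, hr1, hr2, δ1, hδ1, hr3⟩ := VB iso F hF hinv hfree D grid ρ hρ0
  obtain ⟨L, hL, key, hk1, δ2, hδ2, hk2⟩ := VC iso F hF hfree K ρ hρ0
  set g : Finset X → ZMod 2 := prism key r id f with hg
  have hgK : g ∈ Vinv (X := X) K := by
    intro k hk σ
    exact PE key r id (fun x => k • x) (fun x => k • x) (MulAction.injective k)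
      (MulAction.injective k) (hr1 k) (fun _ => rfl) (hk1 k hk) f (hfinv k hk) σ
  have hgF0 : ∀ σ : Finset X, Near F ρ σ → g σ = 0 := by
    intro σ hσ
    rw [hg]
    refine Finset.sum_eq_zero fun x _ => ?_
    split_ifs
    · apply hf1
      intro y hy
      obtain ⟨z, hz, hyz⟩ := VD_prismSet_near key r ρ hr2 σ x y hy
      obtain ⟨p, hp, hzp⟩ := hσ z hz
      refine ⟨p, hp, ?_⟩
      have := dist_triangle y z p
      linarith
    · rfl
  have hgF : g ∈ Vrel F := ⟨ρ, hρ0, hgF0⟩
  have hgW : g ∈ Vinv (X := X) K ⊓ Vrel F := ⟨hgK, hgF⟩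
  have hfW : f ∈ Vinv (X := X) K ⊓ Vrel F := ⟨hfinv, d1, hd1, hf1⟩
  have hdgW : dd g ∈ Vinv (X := X) K ⊓ Vrel F := ⟨DD_Vinv K g hgK, DD_Vrel F g hgF⟩
  have hZ : f - dd g ∈ Zg (X := X) Set.univ n := by
    refine ⟨min ρ (min δ1 δ2), lt_min hρ0 (lt_min hδ1 hδ2), fun σ _ hs hc => ?_⟩
    have hs0 : Small ρ σ := fun x hx y hy => (hs x hx y hy).trans_le (min_le_left _ _)
    have hs1 : Small δ1 σ := fun x hx y hy => (hs x hx y hy).trans_le
      ((min_le_right _ _).trans (min_le_left _ _))
    have hs2 : Small δ2 σ := fun x hx y hy => (hs x hx y hy).trans_le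
      ((min_le_right _ _).trans (min_le_right _ _))
    rw [Pi.sub_apply]
    by_cases hN : Near F ρ σ
    · have h1 : f σ = 0 := by
        apply hf1
        intro x hx
        obtain ⟨p, hp, hxp⟩ := hN x hx
        exact ⟨p, hp, by linarith⟩
      have h2 : dd g σ = 0 := by
        refine Finset.sum_eq_zero fun x _ => ?_
        apply hgF0
        intro y hy
        exact hN y (Finset.mem_of_mem_erase hy)
      rw [h1, h2, sub_zero]
    · have h1 := PR key r id f σ (hk2 σ hs2 hN)
      have h2 : prism key r id (dd f) σ = 0 := by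
        refine Finset.sum_eq_zero fun x _ => ?_
        split_ifs with h3
        · apply hf0 _ (Set.subset_univ _) _ (by rw [h3, hc])
          intro y hy y' hy'
          obtain ⟨z, hz, hyz⟩ := VD_prismSet_near key r ρ hr2 σ x y hy
          obtain ⟨z', hz', hyz'⟩ := VD_prismSet_near key r ρ hr2 σ x y' hy'
          have h4 := dist_triangle4 y z z' y'
          have h5 := hs0 z hz z' hz'
          rw [dist_comm y' z'] at hyz'
          linarith
        · rfl
      have h3 : pull r f σ = 0 := by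
        change (if (σ.image r).card = σ.card then f (σ.image r) else 0) = 0
        rw [if_neg]
        intro h4
        have h5 := hr3 σ hs1 hN
        omega
      rw [h2, h3, DD_id, add_zero, zero_add] at h1
      rw [← h1, sub_self]
  have hfin : f = dd g + (f - dd g) := by abel
  rw [hfin]
  refine Submodule.add_mem_sup ⟨g, hgW, rfl⟩ ⟨?_, hZ⟩
  exact Submodule.sub_mem _ hfW hdgW

end

end Pool.Agent.helper62.K3
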